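import Pool.Agent.Lib.MP_0f858a_nt.KR.AllU84

set_option autoImplicit false

/-!
MP_0f858a_nt: the Kummer ratio `R(q)`.  There is an absolute constant `C` such that
`max (R, 1/R) ≤ C log A` for all but `C x / (log x) ^ A` odd primes `q ≤ x`, uniformly for
`2 ≤ A ≤ (log x) ^ (1/10)`.
-/

namespace Pool.Agent.Results.MP_0f858a_nt.KummerTail

open Finset Filter
open scoped Classical

theorem result (R : ℕ → ℝ)
    (hR : ∀ (q : ℕ) [NeZero q],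
      R q = ‖∏ᶠ (χ : DirichletCharacter ℂ q) (_ : χ (-1) = -1),
        DirichletCharacter.LFunction χ 1‖) :
    (∃ C : ℝ, 0 < C ∧ ∀ x : ℕ, 2 ≤ x → ∀ A : ℕ, 2 ≤ A →
      (A : ℝ) ≤ Real.log x ^ (1 / 10 : ℝ) →
      (((Icc 1 x).filter (fun q : ℕ => q.Prime ∧ q ≠ 2 ∧
        C * Real.log A < max (R q) (R q)⁻¹)).card : ℝ) ≤ C * (x / Real.log x ^ A)) ∧
    (∃ C : ℝ, 0 < C ∧ ∀ x : ℕ, 2 ≤ x →
      (((Icc 1 x).filter (fun q : ℕ => q.Prime ∧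
        C * Real.log (Real.log q) ≤ max (R q) (R q)⁻¹)).card : ℝ) ≤
        C * x * Real.exp (-Real.log x ^ (1 / 10 : ℝ))) ∧
    (∀ ε : ℝ, 0 < ε → ε < 1 / 2 → ∃ C : ℝ, 0 < C ∧ ∀ x : ℕ, 3 ≤ x →
      (((Icc 1 x).filter (fun q : ℕ => q.Prime ∧
        ¬ max (R q) (R q)⁻¹ < Real.log (Real.log q) ^ (1 / 2 + ε))).card : ℝ) ≤
        C * x * Real.exp (-Real.exp (Real.log (Real.log x) ^ (1 / 2 + ε) / C))) ∧
    (∀ f : ℕ → ℝ, Tendsto f atTop atTop → ∀ A : ℕ, 2 ≤ A → ∃ C : ℝ, 0 < C ∧ ∀ x : ℕ, 2 ≤ x →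
      (((Icc 1 x).filter (fun q : ℕ => q.Prime ∧ f q ≤ max (R q) (R q)⁻¹)).card : ℝ) ≤
        C * (x / Real.log x ^ A)) :=
  Lib.MP_0f858a_nt.KR.pub_all Lib.MP_0f858a_nt.KR.mainu84 R hR

end Pool.Agent.Results.MP_0f858a_nt.KummerTail
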